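import Pool.Agent.helper97.KR.Spec

set_option autoImplicit false

namespace Pool.Agent.helper97.KR

open Finset Classical

noncomputable section

theorem LYR_mem {V E : Type} (ends : E → Sym2 V) (F : Finset E) (U : Finset V) (e : E) :
    e ∈ ins ends F U ↔ e ∈ F ∧ ∀ v ∈ ends e, v ∈ U := by
  unfold ins
  rw [Finset.mem_filter]

theorem LYR_ins {V E : Type} (ends : E → Sym2 V) (F : Finset E) (U S : Finset V) (h : U ⊆ S) :
    ins ends (ins ends F S) U = ins ends F U := by
  ext e
  rw [LYR_mem, LYR_mem, LYR_mem]
  constructor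
  · rintro ⟨⟨h1, _⟩, h3⟩
    exact ⟨h1, h3⟩
  · rintro ⟨h1, h3⟩
    exact ⟨⟨h1, fun v hv => h (h3 v hv)⟩, h3⟩

theorem LYR_mono (V : Type) (L : ℕ → Finset V) (k : ℕ) (hL : ∀ i < k, L i ⊆ L (i + 1)) :
    ∀ i j : ℕ, i ≤ j → j ≤ k → L i ⊆ L j := by
  intro i j hij
  induction j, hij using Nat.le_induction with
  | base => intro _; exact Finset.Subset.refl _
  | succ j hij ih =>
    intro hjk
    exact Finset.Subset.trans (ih (by omega)) (hL j (by omega))

theorem LYR_step (hTG : TG_stmt) (hTSK : TSK_stmt) (hBB : BB_stmt) (V E : Type) (ends : E → Sym2 V)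
    (S U : Finset V) (F' : Finset E) (x : V) (hG : G3 ends S F') (hUS : U ⊆ S) (hxU : x ∈ U)
    (htight : (ins ends F' U).card + 3 = 3 * U.card)
    (hdom : ∀ v ∈ S, v ∉ U → 5 ≤ dgr ends F' v → ∃ u ∈ U, ∃ e ∈ F', ends e = s(u, v))
    (hKU : KO ends U (ins ends F' U)) (hne : U ≠ S) : KO ends S F' := by
  by_cases h2 : 2 ≤ U.card
  · have hlt : U.card < S.card := Finset.card_lt_card (Finset.ssubset_iff_subset_ne.2 ⟨hUS, hne⟩)
    refine hTSK V E ends S U x F' hUS hxU h2 hlt hKU ?_
    have hG2 := (hTG V E ends S U x F' hG hUS hxU htight).2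
    refine hBB V E (cE ends U x) (cS S U x) (F' \ ins ends F' U) x hG2 ?_ ?_
    · unfold cS
      exact Finset.mem_insert_self _ _
    · intro v hv hvx h5
      have hvSU : v ∈ S \ U := by
        unfold cS at hv
        rcases Finset.mem_insert.1 hv with h | h
        · exact absurd h hvx
        · exact h
      have hvS : v ∈ S := (Finset.mem_sdiff.1 hvSU).1
      have hvU : v ∉ U := (Finset.mem_sdiff.1 hvSU).2
      have hle : dgr (cE ends U x) (F' \ ins ends F' U) v ≤ dgr ends F' v := by
        unfold dgr
        apply Finset.card_le_card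
        intro e he
        rw [Finset.mem_filter] at he ⊢
        refine ⟨(Finset.mem_sdiff.1 he.1).1, ?_⟩
        have h6 := he.2
        unfold cE at h6
        rw [Sym2.mem_map] at h6
        obtain ⟨w, hw, hwv⟩ := h6
        unfold cp at hwv
        by_cases hwU : w ∈ U
        · rw [if_pos hwU] at hwv
          exact absurd hwv.symm hvx
        · rw [if_neg hwU] at hwv
          rw [← hwv]
          exact hw
      obtain ⟨u, hu, e, he, hends⟩ := hdom v hvS hvU (le_trans h5 hle)
      refine ⟨e, Finset.mem_sdiff.2 ⟨he, ?_⟩, ?_⟩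
      · intro hin
        have h7 := ((LYR_mem ends F' U e).1 hin).2 v (by rw [hends]; exact Sym2.mem_mk_right u v)
        exact hvU h7
      · unfold cE
        rw [hends, Sym2.map_mk]
        unfold cp
        simp [hu, hvU]
  · have hU : U = {x} := by
      have h1 : U.card ≤ 1 := by omega
      rw [Finset.card_le_one] at h1
      ext y
      rw [Finset.mem_singleton]
      constructor
      · intro hy
        exact h1 y hy x hxU
      · intro hy
        rw [hy]
        exact hxU
    refine hBB V E ends S F' x hG (hUS hxU) ?_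
    intro v hv hvx h5
    have hvU : v ∉ U := by
      rw [hU, Finset.mem_singleton]
      exact hvx
    obtain ⟨u, hu, e, he, hends⟩ := hdom v hv hvU h5
    rw [hU, Finset.mem_singleton] at hu
    rw [hu] at hends
    exact ⟨e, he, hends⟩

theorem LYR (hSP3 : SP3_stmt) (hTG : TG_stmt) (hTSK : TSK_stmt) (hBB : BB_stmt) : LYR_stmt := by
  intro V E ends L F x k hG hL0 hL hT hdom
  have hmono := LYR_mono V L k hL
  have hx0 : x ∈ L 0 := by rw [hL0]; exact Finset.mem_singleton_self x
  have hx : ∀ i ≤ k, x ∈ L i := fun i hi => hmono 0 i (Nat.zero_le _) hi hx0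
  have hGi : ∀ i ≤ k, G3 ends (L i) (ins ends F (L i)) := fun i hi =>
    (hTG V E ends (L k) (L i) x F hG (hmono i k hi le_rfl) (hx i hi) (hT i hi)).1
  have hmain : ∀ i ≤ k, KO ends (L i) (ins ends F (L i)) := by
    intro i
    induction i with
    | zero =>
      intro _ h2
      rw [hL0, Finset.card_singleton] at h2
      omega
    | succ i ih =>
      intro hik
      have hKU := ih (by omega)
      by_cases hne : L i = L (i + 1)
      · rw [← hne]
        exact hKU
      · have hsub := hL i (by omega)
        have hins := LYR_ins ends F (L i) (L (i + 1)) hsub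
        refine LYR_step hTG hTSK hBB V E ends (L (i + 1)) (L i) (ins ends F (L (i + 1))) x
          (hGi (i + 1) hik) hsub (hx i (by omega)) ?_ ?_ ?_ hne
        · rw [hins]
          exact hT i (by omega)
        · intro v hv hvU h5
          obtain ⟨u, hu, e, he, hends⟩ := hdom i (by omega) v hv hvU h5
          refine ⟨u, hu, e, (LYR_mem ends F (L (i + 1)) e).2 ⟨he, ?_⟩, hends⟩
          intro w hw
          rw [hends, Sym2.mem_iff] at hw
          rcases hw with h | h
          · rw [h]
            exact hsub hu
          · rw [h]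
            exact hv
        · rw [hins]
          exact hKU
  have hF : ins ends F (L k) = F := by
    ext e
    rw [LYR_mem]
    exact ⟨fun h => h.1, fun h => ⟨h, fun v hv => hG.sub e h v hv⟩⟩
  have h := hmain k le_rfl
  rw [hF] at h
  exact h

end

end Pool.Agent.helper97.KR
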