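import Pool.Agent.helper44.KR.SpecJ

/-! Project kr, modules EX2L and EX2R (the bijections at the two ends). -/

noncomputable section

namespace Pool.Agent.helper44.KR

theorem EX2_core {ι P Q A C ρ ν K : Type} [Fintype ι] [DecidableEq ι] [Fintype P] [Fintype Q]
    [Fintype A] [Fintype C] [DecidableEq P] [DecidableEq Q] [DecidableEq A] [DecidableEq C]
    [DecidableEq ρ] [DecidableEq ν]
    (R : ι → Prop) [DecidablePred R] (eR : {i // R i} ≃ ρ × K) (eN : {i // ¬ R i} ≃ ν × C)
    (fC : C ≃ K × Q) (fA : A ≃ (ρ × P) ⊕ (ν × (P × Q))) :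
    ∃ e : (ι × (P × Q)) ≃ (A × C), ∀ (x : P → P → ℂ) (y : P × Q → P × Q → ℂ),
      ∃ N : A → A → ℂ, ∀ u v : A × C,
        (if (e.symm u).1 = (e.symm v).1 then
          (if R (e.symm u).1 then
            (if (e.symm u).2.2 = (e.symm v).2.2 then x (e.symm u).2.1 (e.symm v).2.1 else 0)
            else y (e.symm u).2 (e.symm v).2) else 0) = if u.2 = v.2 then N u.1 v.1 else 0 := by
  classical
  let G : ((ρ × P) ⊕ (ν × (P × Q))) × C → ι × (P × Q) := fun w =>
    match w.1 with
    | Sum.inl a => ((eR.symm (a.1, (fC w.2).1)).1, (a.2, (fC w.2).2))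
    | Sum.inr b => ((eN.symm (b.1, w.2)).1, b.2)
  have hGinj : Function.Injective G := by
    rintro ⟨w, c⟩ ⟨w', c'⟩ h
    rcases w with ⟨a, s⟩ | ⟨b, st⟩ <;> rcases w' with ⟨a', s'⟩ | ⟨b', st'⟩
    · have h' : ((eR.symm (a, (fC c).1)).1, (s, (fC c).2)) =
          ((eR.symm (a', (fC c').1)).1, (s', (fC c').2)) := h
      rw [Prod.ext_iff] at h'
      obtain ⟨h1, h2⟩ := h'
      have h3 := eR.symm.injective (Subtype.ext h1)
      rw [Prod.ext_iff] at h3 h2
      obtain ⟨h3, h4⟩ := h3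
      obtain ⟨h5, h6⟩ := h2
      have h7 : c = c' := fC.injective (Prod.ext h4 h6)
      simp only at h3 h5
      rw [h3, h5, h7]
    · have h' : ((eR.symm (a, (fC c).1)).1, (s, (fC c).2)) =
          ((eN.symm (b', c')).1, st') := h
      have h1 : (eR.symm (a, (fC c).1)).1 = (eN.symm (b', c')).1 := congrArg Prod.fst h'
      have h2 := (eR.symm (a, (fC c).1)).2
      rw [h1] at h2
      exact absurd h2 (eN.symm (b', c')).2
    · have h' : ((eN.symm (b, c)).1, st) =
          ((eR.symm (a', (fC c').1)).1, (s', (fC c').2)) := h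
      have h1 : (eN.symm (b, c)).1 = (eR.symm (a', (fC c').1)).1 := congrArg Prod.fst h'
      have h2 := (eR.symm (a', (fC c').1)).2
      rw [← h1] at h2
      exact absurd h2 (eN.symm (b, c)).2
    · have h' : ((eN.symm (b, c)).1, st) = ((eN.symm (b', c')).1, st') := h
      rw [Prod.ext_iff] at h'
      obtain ⟨h1, h2⟩ := h'
      have h3 := eN.symm.injective (Subtype.ext h1)
      rw [Prod.ext_iff] at h3
      obtain ⟨h3, h4⟩ := h3
      simp only at h2 h3 h4
      rw [h2, h3, h4]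
  have hGsurj : Function.Surjective G := by
    rintro ⟨i, s, t⟩
    by_cases hi : R i
    · refine ⟨(Sum.inl ((eR ⟨i, hi⟩).1, s), fC.symm ((eR ⟨i, hi⟩).2, t)), ?_⟩
      show ((eR.symm ((eR ⟨i, hi⟩).1, (fC (fC.symm ((eR ⟨i, hi⟩).2, t))).1)).1,
        (s, (fC (fC.symm ((eR ⟨i, hi⟩).2, t))).2)) = (i, s, t)
      rw [Equiv.apply_symm_apply]
      simp
    · refine ⟨(Sum.inr ((eN ⟨i, hi⟩).1, (s, t)), (eN ⟨i, hi⟩).2), ?_⟩
      show ((eN.symm ((eN ⟨i, hi⟩).1, (eN ⟨i, hi⟩).2)).1, (s, t)) = (i, s, t)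
      simp
  let E : (A × C) ≃ (ι × (P × Q)) :=
    (Equiv.prodCongr fA (Equiv.refl C)).trans (Equiv.ofBijective G ⟨hGinj, hGsurj⟩)
  refine ⟨E.symm, fun x y => ?_⟩
  refine ⟨fun a a' => match fA a, fA a' with
    | Sum.inl a, Sum.inl a' => if a.1 = a'.1 then x a.2 a'.2 else 0
    | Sum.inl _, Sum.inr _ => 0
    | Sum.inr _, Sum.inl _ => 0
    | Sum.inr b, Sum.inr b' => if b.1 = b'.1 then y b.2 b'.2 else 0, ?_⟩
  rintro ⟨a, c⟩ ⟨a', c'⟩
  rw [Equiv.symm_symm]
  have hE : ∀ a c, E (a, c) = G (fA a, c) := fun _ _ => rfl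
  rw [hE, hE]
  show _ = if c = c' then (match fA a, fA a' with
    | Sum.inl a, Sum.inl a' => if a.1 = a'.1 then x a.2 a'.2 else 0
    | Sum.inl _, Sum.inr _ => 0
    | Sum.inr _, Sum.inl _ => 0
    | Sum.inr b, Sum.inr b' => if b.1 = b'.1 then y b.2 b'.2 else 0) else 0
  generalize fA a = w
  generalize fA a' = w'
  rcases w with ⟨α, s⟩ | ⟨b, st⟩ <;> rcases w' with ⟨α', s'⟩ | ⟨b', st'⟩
  · show (if (eR.symm (α, (fC c).1)).1 = (eR.symm (α', (fC c').1)).1 then
        (if R (eR.symm (α, (fC c).1)).1 then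
          (if (fC c).2 = (fC c').2 then x s s' else 0) else _) else 0) =
        if c = c' then (if α = α' then x s s' else 0) else 0
    by_cases h1 : (eR.symm (α, (fC c).1)).1 = (eR.symm (α', (fC c').1)).1
    · rw [if_pos h1, if_pos (eR.symm (α, (fC c).1)).2]
      have h3 := eR.symm.injective (Subtype.ext h1)
      rw [Prod.ext_iff] at h3
      obtain ⟨h3, h4⟩ := h3
      simp only at h3 h4
      by_cases h5 : (fC c).2 = (fC c').2
      · have h7 : c = c' := fC.injective (Prod.ext h4 h5)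
        rw [if_pos h5, if_pos h7, if_pos h3]
      · rw [if_neg h5, if_neg (fun h => h5 (by rw [h]))]
    · rw [if_neg h1]
      by_cases h5 : c = c'
      · subst h5
        rw [if_pos rfl, if_neg]
        intro h; exact h1 (by rw [h])
      · rw [if_neg h5]
  · show (if (eR.symm (α, (fC c).1)).1 = (eN.symm (b', c')).1 then _ else 0) =
        if c = c' then (0 : ℂ) else 0
    rw [if_neg]
    · split_ifs <;> rfl
    · intro h1
      have h2 := (eR.symm (α, (fC c).1)).2
      rw [h1] at h2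
      exact (eN.symm (b', c')).2 h2
  · show (if (eN.symm (b, c)).1 = (eR.symm (α', (fC c').1)).1 then _ else 0) =
        if c = c' then (0 : ℂ) else 0
    rw [if_neg]
    · split_ifs <;> rfl
    · intro h1
      have h2 := (eR.symm (α', (fC c').1)).2
      rw [← h1] at h2
      exact (eN.symm (b, c)).2 h2
  · show (if (eN.symm (b, c)).1 = (eN.symm (b', c')).1 then
        (if R (eN.symm (b, c)).1 then _ else y st st') else 0) =
        if c = c' then (if b = b' then y st st' else 0) else 0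
    by_cases h1 : (eN.symm (b, c)).1 = (eN.symm (b', c')).1
    · rw [if_pos h1, if_neg (eN.symm (b, c)).2]
      have h3 := eN.symm.injective (Subtype.ext h1)
      rw [Prod.ext_iff] at h3
      obtain ⟨h3, h4⟩ := h3
      simp only at h3 h4
      rw [if_pos h4, if_pos h3]
    · rw [if_neg h1]
      by_cases h5 : c = c'
      · subst h5
        rw [if_pos rfl, if_neg]
        intro h; exact h1 (by rw [h])
      · rw [if_neg h5]

theorem EX2L : EX2L_stmt := by
  intro p q k0 k1 r n hp hq hk0 hk1 hr ι _ _ R _ hι hR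
  classical
  have hN : Fintype.card {i // ¬ R i} = n * (k1 * q) := by
    have h1 := Fintype.card_subtype_compl (fun i => R i)
    rw [h1, hι, hR, ← hr]
    have : (r + n * q) * k1 = r * k1 + n * (k1 * q) := by ring
    rw [this]
    omega
  have eR : {i // R i} ≃ Fin r × Fin k1 :=
    Fintype.equivOfCardEq (by rw [hR, Fintype.card_prod, Fintype.card_fin, Fintype.card_fin])
  have eN : {i // ¬ R i} ≃ Fin n × Fin (k1 * q) :=
    Fintype.equivOfCardEq (by rw [hN, Fintype.card_prod, Fintype.card_fin, Fintype.card_fin])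
  have fC : Fin (k1 * q) ≃ Fin k1 × Fin q := finProdFinEquiv.symm
  have fA : Fin (k0 * p) ≃ (Fin r × Fin p) ⊕ (Fin n × (Fin p × Fin q)) :=
    Fintype.equivOfCardEq (by
      simp only [Fintype.card_fin, Fintype.card_sum, Fintype.card_prod]
      rw [← hr]; ring)
  obtain ⟨e, he⟩ := EX2_core R eR eN fC fA
  refine ⟨e, fun x y => ?_⟩
  obtain ⟨N, hN'⟩ := he (fun i j => x i j) (fun i j => y i j)
  refine ⟨MB.of N, MB.ext fun u v => ?_⟩
  exact (hN' u v).symm

theorem EX2R : EX2R_stmt := by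
  intro p q k0 k1 r n hp hq hk0 hk1 hr ι _ _ R _ hι hR
  classical
  have hN : Fintype.card {i // ¬ R i} = n * (k0 * p) := by
    have h1 := Fintype.card_subtype_compl (fun i => R i)
    rw [h1, hι, hR, ← hr]
    have : k0 * (r + n * p) = r * k0 + n * (k0 * p) := by ring
    rw [this]
    omega
  have eR : {i // R i} ≃ Fin r × Fin k0 :=
    Fintype.equivOfCardEq (by rw [hR, Fintype.card_prod, Fintype.card_fin, Fintype.card_fin])
  have eN : {i // ¬ R i} ≃ Fin n × Fin (k0 * p) :=
    Fintype.equivOfCardEq (by rw [hN, Fintype.card_prod, Fintype.card_fin, Fintype.card_fin])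
  have fC : Fin (k0 * p) ≃ Fin k0 × Fin p := finProdFinEquiv.symm
  have fA : Fin (k1 * q) ≃ (Fin r × Fin q) ⊕ (Fin n × (Fin q × Fin p)) :=
    Fintype.equivOfCardEq (by
      simp only [Fintype.card_fin, Fintype.card_sum, Fintype.card_prod]
      rw [← hr]; ring)
  obtain ⟨e, he⟩ := EX2_core R eR eN fC fA
  let e' : (ι × (Fin p × Fin q)) ≃ (Fin (k0 * p) × Fin (k1 * q)) :=
    ((Equiv.prodCongr (Equiv.refl ι) (Equiv.prodComm (Fin p) (Fin q))).trans e).trans
      (Equiv.prodComm _ _)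
  refine ⟨e', fun x y => ?_⟩
  obtain ⟨N, hN'⟩ := he (fun i j => x i j) (fun i j => y (i.2, i.1) (j.2, j.1))
  refine ⟨MB.of N, MB.ext fun u v => ?_⟩
  have h := hN' (u.2, u.1) (v.2, v.1)
  exact h.symm

end Pool.Agent.helper44.KR
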