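import Pool.Agent.helper44.KR.SpecJ

/-! Project kr, module EX3 (one step of the Jiang-Su construction). -/

noncomputable section

namespace Pool.Agent.helper44.KR

def EX3_lo : C(unitInterval, unitInterval) :=
  ⟨fun s => ⟨(s : ℝ) / 2, div_nonneg s.2.1 (by norm_num), by have := s.2.2; linarith⟩, by fun_prop⟩

def EX3_mid : C(unitInterval, unitInterval) :=
  ⟨fun _ => ⟨1 / 2, by norm_num, by norm_num⟩, by fun_prop⟩

def EX3_hi : C(unitInterval, unitInterval) :=
  ⟨fun s => ⟨(1 + (s : ℝ)) / 2, div_nonneg (by have := s.2.1; linarith) (by norm_num),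
    by have := s.2.2; linarith⟩, by fun_prop⟩

theorem EX3_permM_mul {n m : Type} [Fintype n] [DecidableEq n] [Fintype m] [DecidableEq m]
    (e : n ≃ m) : permM e * (permM e).conjTranspose = 1 := by
  ext x y
  rw [Matrix.mul_apply, Matrix.one_apply, Finset.sum_eq_single (e.symm x)]
  · show (if x = e (e.symm x) then (1 : ℂ) else 0) * star (if y = e (e.symm x) then (1 : ℂ) else 0) = _
    rw [Equiv.apply_symm_apply, if_pos rfl, one_mul]
    by_cases h : x = y
    · rw [if_pos h, if_pos h.symm, star_one]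
    · rw [if_neg h, if_neg (Ne.symm h), star_zero]
  · intro z _ hz
    show (if x = e z then (1 : ℂ) else 0) * _ = 0
    rw [if_neg (fun h => hz (by rw [h, Equiv.symm_apply_apply])), zero_mul]
  · intro h; exact absurd (Finset.mem_univ _) h

theorem EX3_permM_mul' {n m : Type} [Fintype n] [DecidableEq n] [Fintype m] [DecidableEq m]
    (e : n ≃ m) : (permM e).conjTranspose * permM e = 1 := by
  ext x y
  rw [Matrix.mul_apply, Matrix.one_apply, Finset.sum_eq_single (e x)]
  · show star (if e x = e x then (1 : ℂ) else 0) * (if e x = e y then (1 : ℂ) else 0) = _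
    rw [if_pos rfl, star_one, one_mul]
    by_cases h : x = y
    · rw [if_pos h, if_pos (by rw [h])]
    · rw [if_neg h, if_neg (fun hh => h (e.injective hh))]
  · intro z _ hz
    show star (if z = e x then (1 : ℂ) else 0) * _ = 0
    rw [if_neg hz, star_zero, zero_mul]
  · intro h; exact absurd (Finset.mem_univ _) h

theorem EX3_permM_trans {n m l : Type} [Fintype n] [DecidableEq n] [Fintype m] [DecidableEq m]
    [Fintype l] [DecidableEq l] (e : m ≃ l) (σ : n ≃ m) :
    permM e * permM σ = permM (σ.trans e) := by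
  ext x y
  rw [Matrix.mul_apply, Finset.sum_eq_single (σ y)]
  · show (if x = e (σ y) then (1 : ℂ) else 0) * (if σ y = σ y then (1 : ℂ) else 0) =
      if x = e (σ y) then 1 else 0
    rw [if_pos rfl, mul_one]
  · intro z _ hz
    show _ * (if z = σ y then (1 : ℂ) else 0) = 0
    rw [if_neg hz, mul_zero]
  · intro h; exact absurd (Finset.mem_univ _) h

theorem EX3_fn {p q P Q : ℕ} (d : DMap p q P Q) (s : unitInterval)
    (e : (Fin d.m × (Fin p × Fin q)) ≃ (Fin P × Fin Q)) (he : d.U s = permM e)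
    (f : unitInterval → MB (Fin p × Fin q) ℂ) (u v : Fin P × Fin Q) :
    d.fn ℂ f s u v = if (e.symm u).1 = (e.symm v).1 then
      f (d.ξ (e.symm u).1 s) (e.symm u).2 (e.symm v).2 else 0 := by
  show ∑ i, ∑ k, ∑ l, (d.U s u (i, k) * star (d.U s v (i, l))) • f (d.ξ i s) k l = _
  rw [he]
  have h1 : ∀ i k, permM e u (i, k) = if i = (e.symm u).1 then (if k = (e.symm u).2 then 1 else 0)
      else 0 := by
    intro i k
    show (if u = e (i, k) then (1 : ℂ) else 0) = _
    by_cases h : u = e (i, k)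
    · rw [if_pos h, h, Equiv.symm_apply_apply, if_pos rfl, if_pos rfl]
    · rw [if_neg h]
      by_cases h2 : i = (e.symm u).1
      · rw [if_pos h2, if_neg]
        intro h3
        apply h
        rw [h2, h3]
        exact (e.apply_symm_apply u).symm
      · rw [if_neg h2]
  have h2 : ∀ i k, permM e v (i, k) = if i = (e.symm v).1 then (if k = (e.symm v).2 then 1 else 0)
      else 0 := by
    intro i k
    show (if v = e (i, k) then (1 : ℂ) else 0) = _
    by_cases h : v = e (i, k)
    · rw [if_pos h, h, Equiv.symm_apply_apply, if_pos rfl, if_pos rfl]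
    · rw [if_neg h]
      by_cases h2 : i = (e.symm v).1
      · rw [if_pos h2, if_neg]
        intro h3
        apply h
        rw [h2, h3]
        exact (e.apply_symm_apply v).symm
      · rw [if_neg h2]
  rw [Finset.sum_eq_single (e.symm u).1, Finset.sum_eq_single (e.symm u).2,
    Finset.sum_eq_single (e.symm v).2]
  · rw [h1, h2, if_pos rfl, if_pos rfl, if_pos rfl]
    by_cases h3 : (e.symm u).1 = (e.symm v).1
    · rw [if_pos h3, if_pos h3, star_one, one_mul, one_smul]
    · rw [if_neg h3, if_neg h3, star_zero, mul_zero, zero_smul]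
  · intro l _ hl
    rw [h2, if_neg hl]
    simp
  · intro h; exact absurd (Finset.mem_univ _) h
  · intro k _ hk
    refine Finset.sum_eq_zero fun l _ => ?_
    rw [h1, if_neg hk]
    simp
  · intro h; exact absurd (Finset.mem_univ _) h
  · intro i _ hi
    refine Finset.sum_eq_zero fun k _ => Finset.sum_eq_zero fun l _ => ?_
    rw [h1, if_neg hi]
    simp
  · intro h; exact absurd (Finset.mem_univ _) h

theorem EX3_card_lt (m a : ℕ) (h : a ≤ m) : Fintype.card {i : Fin m // (i : ℕ) < a} = a := by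
  rw [Fintype.card_subtype, Fin.card_filter_val_lt, min_eq_right h]

theorem EX3 (hEX1 : EX1_stmt) (hEX2L : EX2L_stmt) (hEX2R : EX2R_stmt) : EX3_stmt := by
  intro p q k0 k1 hp hq hk0 hk1 hr0 hr1
  classical
  have hb0 : k0 % q < q := Nat.mod_lt _ (by omega)
  have hb1 : k1 % p < p := Nat.mod_lt _ (by omega)
  have hlt : k0 % q * k1 + k1 % p * k0 < k0 * k1 := by
    have a1 : 2 * (k0 % q * k1) ≤ k0 * k1 := by
      calc 2 * (k0 % q * k1) = (2 * (k0 % q)) * k1 := by ring
        _ ≤ k0 * k1 := Nat.mul_le_mul_right _ (by omega)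
    have a2 : 2 * (k1 % p * k0) < k0 * k1 := by
      calc 2 * (k1 % p * k0) = k0 * (2 * (k1 % p)) := by ring
        _ < k0 * k1 := Nat.mul_lt_mul_of_pos_left (by omega) (by omega)
    omega
  set r0 := k0 % q with hr0'
  set r1 := k1 % p with hr1'
  have hd0 : r0 + k0 / q * q = k0 := by
    have := Nat.mod_add_div k0 q
    rw [mul_comm (k0 / q)]; exact this
  have hd1 : r1 + k1 / p * p = k1 := by
    have := Nat.mod_add_div k1 p
    rw [mul_comm (k1 / p)]; exact this
  have hc0 : Fintype.card {i : Fin (k0 * k1) // (i : ℕ) < r0 * k1} = r0 * k1 :=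
    EX3_card_lt _ _ (by omega)
  have hc1 : Fintype.card {i : Fin (k0 * k1) // ¬ (i : ℕ) < k0 * k1 - r1 * k0} = r1 * k0 := by
    rw [Fintype.card_subtype_compl, EX3_card_lt _ _ (by omega), Fintype.card_fin]
    omega
  obtain ⟨e0, he0⟩ := hEX2L p q k0 k1 r0 (k0 / q) (by omega) (by omega) (by omega) (by omega) hd0
    (Fin (k0 * k1)) (fun i => (i : ℕ) < r0 * k1) (Fintype.card_fin _) hc0
  obtain ⟨e1, he1⟩ := hEX2R p q k0 k1 r1 (k1 / p) (by omega) (by omega) (by omega) (by omega) hd1
    (Fin (k0 * k1)) (fun i => ¬ (i : ℕ) < k0 * k1 - r1 * k0) (Fintype.card_fin _) hc1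
  obtain ⟨V, hVc, hV0, hV1, hVu⟩ := hEX1 (Fin (k0 * k1) × (Fin p × Fin q)) (e1.trans e0.symm)
  let ξ : Fin (k0 * k1) → C(unitInterval, unitInterval) := fun i =>
    if (i : ℕ) < r0 * k1 then EX3_lo else if (i : ℕ) < k0 * k1 - r1 * k0 then EX3_mid else EX3_hi
  let d : DMap p q (k0 * p) (k1 * q) :=
    { m := k0 * k1
      ξ := ξ
      U := fun s => permM e0 * V s
      cont := continuous_const.matrix_mul hVc
      uu := fun s => by
        rw [Matrix.conjTranspose_mul, Matrix.mul_assoc, ← Matrix.mul_assoc (V s), (hVu s).1,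
          Matrix.one_mul, EX3_permM_mul]
      uu' := fun s => by
        rw [Matrix.conjTranspose_mul, Matrix.mul_assoc, ← Matrix.mul_assoc _ (permM e0),
          EX3_permM_mul', Matrix.one_mul, (hVu s).2] }
  have hU0 : d.U 0 = permM e0 := by
    show permM e0 * V 0 = _
    rw [hV0, Matrix.mul_one]
  have hU1 : d.U 1 = permM e1 := by
    show permM e0 * V 1 = _
    rw [hV1, EX3_permM_trans]
    congr 1
    exact Equiv.ext fun x => e0.apply_symm_apply (e1 x)
  have hξ0 : ∀ i : Fin (k0 * k1), (i : ℕ) < r0 * k1 → ξ i 0 = 0 := by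
    intro i hi
    show (if (i : ℕ) < r0 * k1 then EX3_lo else if (i : ℕ) < k0 * k1 - r1 * k0 then EX3_mid
      else EX3_hi : C(unitInterval, unitInterval)) 0 = 0
    rw [if_pos hi]
    apply Subtype.ext
    show ((0 : unitInterval) : ℝ) / 2 = ((0 : unitInterval) : ℝ)
    simp
  have hξ0' : ∀ i : Fin (k0 * k1), ¬ (i : ℕ) < r0 * k1 → ξ i 0 = EX3_mid 0 := by
    intro i hi
    show (if (i : ℕ) < r0 * k1 then EX3_lo else if (i : ℕ) < k0 * k1 - r1 * k0 then EX3_mid
      else EX3_hi : C(unitInterval, unitInterval)) 0 = _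
    rw [if_neg hi]
    split_ifs
    · rfl
    · apply Subtype.ext
      show (1 + ((0 : unitInterval) : ℝ)) / 2 = 1 / 2
      simp
  have hξ1 : ∀ i : Fin (k0 * k1), ¬ (i : ℕ) < k0 * k1 - r1 * k0 → ξ i 1 = 1 := by
    intro i hi
    show (if (i : ℕ) < r0 * k1 then EX3_lo else if (i : ℕ) < k0 * k1 - r1 * k0 then EX3_mid
      else EX3_hi : C(unitInterval, unitInterval)) 1 = 1
    rw [if_neg (by omega), if_neg hi]
    apply Subtype.ext
    show (1 + ((1 : unitInterval) : ℝ)) / 2 = ((1 : unitInterval) : ℝ)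
    simp
  have hξ1' : ∀ i : Fin (k0 * k1), (i : ℕ) < k0 * k1 - r1 * k0 → ξ i 1 = EX3_mid 0 := by
    intro i hi
    show (if (i : ℕ) < r0 * k1 then EX3_lo else if (i : ℕ) < k0 * k1 - r1 * k0 then EX3_mid
      else EX3_hi : C(unitInterval, unitInterval)) 1 = _
    split_ifs
    · apply Subtype.ext
      show ((1 : unitInterval) : ℝ) / 2 = 1 / 2
      simp
    · rfl
  refine ⟨d, ?_, ?_, ?_, ?_⟩
  · intro f hf
    obtain ⟨⟨X, hX⟩, ⟨Y, hY⟩⟩ := mem_DD.1 hf
    constructor
    · have h := he0 X (f (EX3_mid 0))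
      have e : d.fn ℂ f 0 = MB.of fun u v =>
        if (e0.symm u).1 = (e0.symm v).1 then
          if (((e0.symm u).1 : Fin (k0 * k1)) : ℕ) < r0 * k1 then
            MB.emL p q ℂ X (e0.symm u).2 (e0.symm v).2
          else f (EX3_mid 0) (e0.symm u).2 (e0.symm v).2
        else 0 := by
        refine MB.ext fun u v => ?_
        rw [EX3_fn d 0 e0 hU0]
        show _ = if (e0.symm u).1 = (e0.symm v).1 then
          if (((e0.symm u).1 : Fin (k0 * k1)) : ℕ) < r0 * k1 then
            MB.emL p q ℂ X (e0.symm u).2 (e0.symm v).2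
          else f (EX3_mid 0) (e0.symm u).2 (e0.symm v).2
        else 0
        by_cases h1 : (e0.symm u).1 = (e0.symm v).1
        · rw [if_pos h1, if_pos h1]
          by_cases h2 : (((e0.symm u).1 : Fin (k0 * k1)) : ℕ) < r0 * k1
          · rw [if_pos h2]
            have h3 : d.ξ (e0.symm u).1 0 = 0 := hξ0 _ h2
            have h4 : MB.emL p q ℂ X = f 0 := hX
            rw [h3, h4]
          · rw [if_neg h2]
            have h3 : d.ξ (e0.symm u).1 0 = EX3_mid 0 := hξ0' _ h2
            rw [h3]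
        · rw [if_neg h1, if_neg h1]
      rw [e]
      exact h
    · have h := he1 Y (f (EX3_mid 0))
      have e : d.fn ℂ f 1 = MB.of fun u v =>
        if (e1.symm u).1 = (e1.symm v).1 then
          if ¬ (((e1.symm u).1 : Fin (k0 * k1)) : ℕ) < k0 * k1 - r1 * k0 then
            MB.emR p q ℂ Y (e1.symm u).2 (e1.symm v).2
          else f (EX3_mid 0) (e1.symm u).2 (e1.symm v).2
        else 0 := by
        refine MB.ext fun u v => ?_
        rw [EX3_fn d 1 e1 hU1]
        show _ = if (e1.symm u).1 = (e1.symm v).1 then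
          if ¬ (((e1.symm u).1 : Fin (k0 * k1)) : ℕ) < k0 * k1 - r1 * k0 then
            MB.emR p q ℂ Y (e1.symm u).2 (e1.symm v).2
          else f (EX3_mid 0) (e1.symm u).2 (e1.symm v).2
        else 0
        by_cases h1 : (e1.symm u).1 = (e1.symm v).1
        · rw [if_pos h1, if_pos h1]
          by_cases h2 : ¬ (((e1.symm u).1 : Fin (k0 * k1)) : ℕ) < k0 * k1 - r1 * k0
          · rw [if_pos h2]
            have h3 : d.ξ (e1.symm u).1 1 = 1 := hξ1 _ h2
            have h4 : MB.emR p q ℂ Y = f 1 := hY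
            rw [h3, h4]
          · rw [if_neg h2]
            have h3 : d.ξ (e1.symm u).1 1 = EX3_mid 0 := hξ1' _ (not_not.1 h2)
            rw [h3]
        · rw [if_neg h1, if_neg h1]
      rw [e]
      exact h
  · intro i
    show (∀ s, ((ξ i s : unitInterval) : ℝ) = s / 2) ∨ (∀ s, ((ξ i s : unitInterval) : ℝ) = 1 / 2) ∨
        (∀ s, ((ξ i s : unitInterval) : ℝ) = (1 + s) / 2)
    show (∀ s, (((if (i : ℕ) < r0 * k1 then EX3_lo else if (i : ℕ) < k0 * k1 - r1 * k0 then EX3_mid
      else EX3_hi : C(unitInterval, unitInterval)) s : unitInterval) : ℝ) = s / 2) ∨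
      (∀ s, (((if (i : ℕ) < r0 * k1 then EX3_lo else if (i : ℕ) < k0 * k1 - r1 * k0 then EX3_mid
      else EX3_hi : C(unitInterval, unitInterval)) s : unitInterval) : ℝ) = 1 / 2) ∨
      (∀ s, (((if (i : ℕ) < r0 * k1 then EX3_lo else if (i : ℕ) < k0 * k1 - r1 * k0 then EX3_mid
      else EX3_hi : C(unitInterval, unitInterval)) s : unitInterval) : ℝ) = (1 + s) / 2)
    split_ifs
    · left; intro s; rfl
    · right; left; intro s; rfl
    · right; right; intro s; rfl
  · have h0 : 0 < r0 * k1 := Nat.mul_pos (Nat.pos_of_ne_zero hr0) (by omega)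
    refine ⟨⟨0, by show 0 < k0 * k1; omega⟩, fun s => ?_⟩
    show (((if (0 : ℕ) < r0 * k1 then EX3_lo else if (0 : ℕ) < k0 * k1 - r1 * k0 then EX3_mid
      else EX3_hi : C(unitInterval, unitInterval)) s : unitInterval) : ℝ) = s / 2
    rw [if_pos h0]
    rfl
  · have h0 : 0 < r1 * k0 := Nat.mul_pos (Nat.pos_of_ne_zero hr1) (by omega)
    refine ⟨⟨k0 * k1 - 1, by show k0 * k1 - 1 < k0 * k1; omega⟩, fun s => ?_⟩
    show (((if (k0 * k1 - 1 : ℕ) < r0 * k1 then EX3_lo else
      if (k0 * k1 - 1 : ℕ) < k0 * k1 - r1 * k0 then EX3_mid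
      else EX3_hi : C(unitInterval, unitInterval)) s : unitInterval) : ℝ) = (1 + s) / 2
    rw [if_neg (by omega), if_neg (by omega)]
    rfl

end Pool.Agent.helper44.KR
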